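import Mathlib

/-!
Left orders on quotients of the group of the census manifold `v2503`: the peripheral subgroup has
a fixed cut, and this cut is then fixed by the whole group.
-/

namespace Pool.Agent.Helper20.OC

/-- The relator of the group of `v2503` in two generators. -/
def relW {Q : Type} [Group Q] (v z : Q) : Q :=
  v ^ 2 * z * v ^ 3 * z * v ^ 2 * z * v ^ 3 * z * v ^ 3 * z * v ^ 2 * z * v ^ 3 * z * v ^ 2 * z ^ 3

/-- A meridian-like peripheral element. -/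
def mu {Q : Type} [Group Q] (v z : Q) : Q := v * (z⁻¹) ^ 2

/-- The rational longitude. -/
def lam {Q : Type} [Group Q] (v z : Q) : Q := v * z * v ^ 2 * z * v ^ 3 * z * v ^ 2 * z

section Order

variable {Q : Type} [Group Q] [LinearOrder Q] (hl : ∀ f g h : Q, g < h → f * g < f * h)

include hl in
theorem one_lt_pow {g : Q} (hg : 1 < g) (n : ℕ) : 1 < g ^ (n + 1) := by
  induction n with
  | zero => simpa using hg
  | succ n ih =>
    have h := hl (g ^ (n + 1)) 1 g hg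
    rw [mul_one] at h
    rw [pow_succ]
    exact ih.trans h

include hl in
theorem pow_lt_one {g : Q} (hg : g < 1) (n : ℕ) : g ^ (n + 1) < 1 := by
  induction n with
  | zero => simpa using hg
  | succ n ih =>
    have h := hl (g ^ (n + 1)) g 1 hg
    rw [mul_one] at h
    rw [pow_succ]
    exact h.trans ih

include hl in
theorem eq_one_of_pow {g : Q} {n : ℕ} (hn : n ≠ 0) (h : g ^ n = 1) : g = 1 := by
  obtain ⟨m, rfl⟩ := Nat.exists_eq_succ_of_ne_zero hn
  rcases lt_trichotomy g 1 with hg | hg | hg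
  · exact absurd h (pow_lt_one hl hg m).ne
  · exact hg
  · exact absurd h (one_lt_pow hl hg m).ne'

include hl in
theorem eq_one_of_zpow {g : Q} {n : ℤ} (hn : n ≠ 0) (h : g ^ n = 1) : g = 1 := by
  have h1 : g ^ n.natAbs = 1 := by
    rcases Int.natAbs_eq n with h2 | h2
    · rw [h2, zpow_natCast] at h
      exact h
    · rw [h2, zpow_neg, zpow_natCast, inv_eq_one] at h
      exact h
  exact eq_one_of_pow hl (Int.natAbs_ne_zero.2 hn) h1

/-- `g` moves every element up. -/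
def Up (g : Q) : Prop := ∀ x : Q, x < g * x

/-- `g` moves every element down. -/
def Down (g : Q) : Prop := ∀ x : Q, g * x < x

theorem Up.mul {g h : Q} (hg : Up g) (hh : Up h) : Up (g * h) := fun x => by
  rw [mul_assoc]
  exact (hh x).trans (hg _)

theorem Down.mul {g h : Q} (hg : Down g) (hh : Down h) : Down (g * h) := fun x => by
  rw [mul_assoc]
  exact (hg _).trans (hh x)

include hl in
theorem Up.conj {g : Q} (hg : Up g) (h : Q) : Up (h * g * h⁻¹) := fun x => by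
  have h1 := hl h _ _ (hg (h⁻¹ * x))
  rw [mul_inv_cancel_left] at h1
  simpa [mul_assoc] using h1

include hl in
theorem Down.conj {g : Q} (hg : Down g) (h : Q) : Down (h * g * h⁻¹) := fun x => by
  have h1 := hl h _ _ (hg (h⁻¹ * x))
  rw [mul_inv_cancel_left] at h1
  simpa [mul_assoc] using h1

theorem Up.inv {g : Q} (hg : Up g) : Down g⁻¹ := fun x => by
  have := hg (g⁻¹ * x)
  rwa [mul_inv_cancel_left] at this

theorem Down.inv {g : Q} (hg : Down g) : Up g⁻¹ := fun x => by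
  have := hg (g⁻¹ * x)
  rwa [mul_inv_cancel_left] at this

theorem not_up_down {g : Q} (h1 : Up g) (h2 : Down g) : False :=
  lt_asymm (h1 1) (h2 1)

/-- The relation of the group read as a product of conjugates of the longitude. -/
theorem planar {v z : Q} (hW : relW v z = 1) :
    (lam v z * ((v * (v ^ 2 * z) * v ^ 2) * lam v z * (v * (v ^ 2 * z) * v ^ 2)⁻¹)) *
      (v * (v ^ 2 * z) ^ 2 * v⁻¹) = 1 := by
  have h1 : (lam v z * ((v * (v ^ 2 * z) * v ^ 2) * lam v z * (v * (v ^ 2 * z) * v ^ 2)⁻¹)) *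
      (v * (v ^ 2 * z) ^ 2 * v⁻¹) = (v * z) * relW v z * (v * z)⁻¹ := by
    unfold lam relW
    simp only [pow_succ, pow_zero, one_mul]
    group
  rw [h1, hW]
  group

theorem lam_eq (v z : Q) : lam v z =
    (v⁻¹ * (v ^ 2 * z) ^ 2 * (v⁻¹)⁻¹) * (v ^ 2 * z) ^ 2 := by
  rw [sq (v ^ 2 * z)]
  unfold lam
  group

include hl in
theorem not_up_lam {v z : Q} (hW : relW v z = 1) : ¬ Up (lam v z) := by
  intro hup
  have h1 := planar hW
  have h2 : Up (lam v z * ((v * (v ^ 2 * z) * v ^ 2) * lam v z *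
    (v * (v ^ 2 * z) * v ^ 2)⁻¹)) := hup.mul (hup.conj hl _)
  have h3 : Down (v * (v ^ 2 * z) ^ 2 * v⁻¹) := by
    rw [← inv_eq_of_mul_eq_one_right h1]
    exact h2.inv
  have h4 : Down ((v ^ 2 * z) ^ 2) := by
    have := h3.conj hl v⁻¹
    have h5 : v⁻¹ * (v * (v ^ 2 * z) ^ 2 * v⁻¹) * v⁻¹⁻¹ = (v ^ 2 * z) ^ 2 := by group
    rwa [h5] at this
  refine not_up_down hup ?_
  rw [lam_eq]
  exact (h4.conj hl _).mul h4

include hl in
theorem not_down_lam {v z : Q} (hW : relW v z = 1) : ¬ Down (lam v z) := by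
  intro hdn
  have h1 := planar hW
  have h2 : Down (lam v z * ((v * (v ^ 2 * z) * v ^ 2) * lam v z *
    (v * (v ^ 2 * z) * v ^ 2)⁻¹)) := hdn.mul (hdn.conj hl _)
  have h3 : Up (v * (v ^ 2 * z) ^ 2 * v⁻¹) := by
    rw [← inv_eq_of_mul_eq_one_right h1]
    exact h2.inv
  have h4 : Up ((v ^ 2 * z) ^ 2) := by
    have := h3.conj hl v⁻¹
    have h5 : v⁻¹ * (v * (v ^ 2 * z) ^ 2 * v⁻¹) * v⁻¹⁻¹ = (v ^ 2 * z) ^ 2 := by group
    rwa [h5] at this
  refine not_up_down ?_ hdn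
  rw [lam_eq]
  exact (h4.conj hl _).mul h4

/-- The elements `g` with `L ⊆ g L`. -/
def upMonoid (L : Set Q) : Submonoid Q where
  carrier := {g | ∀ w ∈ L, g⁻¹ * w ∈ L}
  one_mem' := by
    intro w hw
    simpa using hw
  mul_mem' := by
    intro a b ha hb w hw
    have := hb _ (ha w hw)
    simpa [mul_assoc] using this

theorem mem_upMonoid {L : Set Q} {g : Q} : g ∈ upMonoid L ↔ ∀ w ∈ L, g⁻¹ * w ∈ L := Iff.rfl

/-- `L` is closed downwards. -/
def IsLow (L : Set Q) : Prop := ∀ a b : Q, a ≤ b → b ∈ L → a ∈ L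

include hl in
theorem mem_or_inv_mem {L : Set Q} (hL : IsLow L) (g : Q) :
    g ∈ upMonoid L ∨ g⁻¹ ∈ upMonoid L := by
  by_contra hcon
  rw [not_or] at hcon
  obtain ⟨h1, h2⟩ := hcon
  rw [mem_upMonoid] at h1 h2
  push Not at h1 h2
  obtain ⟨w, hw, hw2⟩ := h1
  obtain ⟨u, hu, hu2⟩ := h2
  rw [inv_inv] at hu2
  have h3 : w < g * u := by
    by_contra h4
    exact hu2 (hL _ _ (not_lt.1 h4) hw)
  have h4 := hl g⁻¹ _ _ h3
  rw [inv_mul_cancel_left] at h4
  exact hw2 (hL _ _ h4.le hu)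

theorem inv_mem_of_pow {L : Set Q} {g : Q} {n : ℕ} (hn : n ≠ 0) (hg : g ∈ upMonoid L)
    (h : (g ^ n)⁻¹ ∈ upMonoid L) : g⁻¹ ∈ upMonoid L := by
  obtain ⟨m, rfl⟩ := Nat.exists_eq_succ_of_ne_zero hn
  have h1 : g⁻¹ = (g ^ (m + 1))⁻¹ * g ^ m := by
    rw [pow_succ, mul_inv_rev, mul_assoc, inv_mul_cancel, mul_one]
  rw [h1]
  exact (upMonoid L).mul_mem h ((upMonoid L).pow_mem hg m)

include hl in
/-- Roots of elements which fix a cut fix the cut. -/
theorem root_mem {L : Set Q} (hL : IsLow L) {g : Q} {n : ℤ} (hn : n ≠ 0)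
    (h1 : g ^ n ∈ upMonoid L) (h2 : (g ^ n)⁻¹ ∈ upMonoid L) :
    g ∈ upMonoid L ∧ g⁻¹ ∈ upMonoid L := by
  have key : g ^ n.natAbs ∈ upMonoid L ∧ (g ^ n.natAbs)⁻¹ ∈ upMonoid L := by
    rcases Int.natAbs_eq n with h | h
    · rw [h, zpow_natCast] at h1 h2
      exact ⟨h1, h2⟩
    · rw [h, zpow_neg, zpow_natCast] at h1 h2
      rw [inv_inv] at h2
      exact ⟨h2, h1⟩
  have hn' := Int.natAbs_ne_zero.2 hn
  rcases mem_or_inv_mem hl hL g with h | h
  · exact ⟨h, inv_mem_of_pow hn' h key.2⟩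
  · refine ⟨?_, h⟩
    have := inv_mem_of_pow hn' h (by rw [inv_pow, inv_inv]; exact key.1)
    rwa [inv_inv] at this

include hl in
theorem exists_cut_aux {g x y : Q} (hy : y < g * y) (hx : g * x < x) (hxy : y < x) :
    ∃ L : Set Q, IsLow L ∧ y ∈ L ∧ x ∉ L ∧ g ∈ upMonoid L ∧ g⁻¹ ∈ upMonoid L := by
  have hle : ∀ f a b : Q, a ≤ b → f * a ≤ f * b := by
    intro f a b hab
    rcases hab.lt_or_eq with h | h
    · exact (hl f a b h).le
    · rw [h]
  have hmono : ∀ n : ℕ, g ^ n * y < g ^ (n + 1) * y := by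
    intro n
    have := hl (g ^ n) _ _ hy
    rwa [← mul_assoc, ← pow_succ] at this
  refine ⟨{w | ∃ n : ℕ, w ≤ g ^ n * y}, ?_, ⟨0, by simp⟩, ?_, ?_, ?_⟩
  · rintro a b hab ⟨n, hn⟩
    exact ⟨n, hab.trans hn⟩
  · rintro ⟨n, hn⟩
    have hlt : ∀ n : ℕ, g ^ n * y < x := by
      intro n
      induction n with
      | zero => simpa using hxy
      | succ n ih =>
        rw [pow_succ', mul_assoc]
        exact (hl g _ _ ih).trans hx
    exact absurd (hlt n) (not_lt.2 hn)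
  · rintro w ⟨n, hn⟩
    refine ⟨n, ?_⟩
    have h1 := hle g⁻¹ _ _ (hn.trans (hmono n).le)
    rwa [pow_succ', mul_assoc, inv_mul_cancel_left] at h1
  · rintro w ⟨n, hn⟩
    refine ⟨n + 1, ?_⟩
    rw [inv_inv, pow_succ', mul_assoc]
    exact hle g _ _ hn

include hl in
theorem exists_cut {g x y : Q} (hy : y < g * y) (hx : g * x < x) :
    ∃ L : Set Q, IsLow L ∧ (∃ a, a ∈ L) ∧ (∃ b, b ∉ L) ∧ g ∈ upMonoid L ∧ g⁻¹ ∈ upMonoid L := by
  rcases lt_trichotomy y x with h | h | h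
  · obtain ⟨L, h1, h2, h3, h4, h5⟩ := exists_cut_aux hl hy hx h
    exact ⟨L, h1, ⟨_, h2⟩, ⟨_, h3⟩, h4, h5⟩
  · rw [h] at hy
    exact absurd hy (lt_asymm hx)
  · have hy' : x < g⁻¹ * x := by
      have := hl g⁻¹ _ _ hx
      rwa [inv_mul_cancel_left] at this
    have hx' : g⁻¹ * y < y := by
      have := hl g⁻¹ _ _ hy
      rwa [inv_mul_cancel_left] at this
    obtain ⟨L, h1, h2, h3, h4, h5⟩ := exists_cut_aux hl hy' hx' h
    rw [inv_inv] at h5
    exact ⟨L, h1, ⟨_, h2⟩, ⟨_, h3⟩, h5, h4⟩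

/-- The relation of the group is a positive word in `μ` and `z`: a cut fixed by `μ` is fixed. -/
theorem all_fixed {L : Set Q} {v z : Q} (hW : relW v z = 1)
    (hz : z ∈ upMonoid L ∨ z⁻¹ ∈ upMonoid L)
    (h1 : mu v z ∈ upMonoid L) (h2 : (mu v z)⁻¹ ∈ upMonoid L) :
    v ∈ upMonoid L ∧ v⁻¹ ∈ upMonoid L ∧ z ∈ upMonoid L ∧ z⁻¹ ∈ upMonoid L := by
  have hv1 : z ∈ upMonoid L → v ∈ upMonoid L := by
    intro h
    have e : v = mu v z * z ^ 2 := by
      unfold mu
      group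
    rw [e]
    exact (upMonoid L).mul_mem h1 ((upMonoid L).pow_mem h 2)
  have hv2 : z⁻¹ ∈ upMonoid L → v⁻¹ ∈ upMonoid L := by
    intro h
    have e : v⁻¹ = z⁻¹ ^ 2 * (mu v z)⁻¹ := by
      unfold mu
      group
    rw [e]
    exact (upMonoid L).mul_mem ((upMonoid L).pow_mem h 2) h2
  have hz1 : z ∈ upMonoid L → z⁻¹ ∈ upMonoid L := by
    intro h
    have hv := hv1 h
    have e : z⁻¹ = v ^ 2 * z * v ^ 3 * z * v ^ 2 * z * v ^ 3 * z * v ^ 3 * z * v ^ 2 * z *
        v ^ 3 * z * v ^ 2 * z ^ 2 := by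
      have e2 : relW v z = (v ^ 2 * z * v ^ 3 * z * v ^ 2 * z * v ^ 3 * z * v ^ 3 * z *
        v ^ 2 * z * v ^ 3 * z * v ^ 2 * z ^ 2) * z := by
        unfold relW
        group
      rw [e2] at hW
      exact (eq_inv_of_mul_eq_one_left hW).symm
    rw [e]
    have m := fun a b => (upMonoid L).mul_mem (x := a) (y := b)
    have p2 := (upMonoid L).pow_mem hv 2
    have p3 := (upMonoid L).pow_mem hv 3
    have q2 := (upMonoid L).pow_mem h 2
    exact m _ _ (m _ _ (m _ _ (m _ _ (m _ _ (m _ _ (m _ _ (m _ _ (m _ _ (m _ _ (m _ _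
      (m _ _ (m _ _ (m _ _ (m _ _ p2 h) p3) h) p2) h) p3) h) p3) h) p2) h) p3) h) p2) q2
  have hz2 : z⁻¹ ∈ upMonoid L → z ∈ upMonoid L := by
    intro h
    have hv := hv2 h
    have e : z = z⁻¹ ^ 2 * v⁻¹ ^ 2 * z⁻¹ * v⁻¹ ^ 3 * z⁻¹ * v⁻¹ ^ 2 * z⁻¹ * v⁻¹ ^ 3 * z⁻¹ *
        v⁻¹ ^ 3 * z⁻¹ * v⁻¹ ^ 2 * z⁻¹ * v⁻¹ ^ 3 * z⁻¹ * v⁻¹ ^ 2 := by
      have e2 : (relW v z)⁻¹ = z⁻¹ * (z⁻¹ ^ 2 * v⁻¹ ^ 2 * z⁻¹ * v⁻¹ ^ 3 * z⁻¹ * v⁻¹ ^ 2 * z⁻¹ *
        v⁻¹ ^ 3 * z⁻¹ * v⁻¹ ^ 3 * z⁻¹ * v⁻¹ ^ 2 * z⁻¹ * v⁻¹ ^ 3 * z⁻¹ * v⁻¹ ^ 2) := by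
        unfold relW
        group
      rw [hW, inv_one] at e2
      exact (inv_mul_eq_one.1 e2.symm)
    rw [e]
    have m := fun a b => (upMonoid L).mul_mem (x := a) (y := b)
    have p2 := (upMonoid L).pow_mem hv 2
    have p3 := (upMonoid L).pow_mem hv 3
    have q2 := (upMonoid L).pow_mem h 2
    exact m _ _ (m _ _ (m _ _ (m _ _ (m _ _ (m _ _ (m _ _ (m _ _ (m _ _ (m _ _ (m _ _
      (m _ _ (m _ _ (m _ _ (m _ _ q2 p2) h) p3) h) p2) h) p3) h) p3) h) p2) h) p3) h) p2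
  rcases hz with h | h
  · exact ⟨hv1 h, hv2 (hz1 h), h, hz1 h⟩
  · exact ⟨hv1 (hz2 h), hv2 h, hz2 h, h⟩

include hl in
/-- The longitude is not killed by a power in a left-ordered quotient unless `v ^ 2 * z = 1`. -/
theorem core_zero {v z : Q} (hW : relW v z = 1) {q : ℤ} (hq : q ≠ 0)
    (h : lam v z ^ q = 1) : v ^ 2 * z = 1 := by
  have h1 : lam v z = 1 := eq_one_of_zpow hl hq h
  have h2 := planar hW
  rw [h1] at h2
  have h3 : (v ^ 2 * z) ^ 2 = 1 := by
    have h4 : v * (v ^ 2 * z) ^ 2 * v⁻¹ = 1 := by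
      rw [mul_one, mul_inv_cancel, one_mul, one_mul] at h2
      exact h2
    have h5 : (v ^ 2 * z) ^ 2 = v⁻¹ * (v * (v ^ 2 * z) ^ 2 * v⁻¹) * v := by group
    rw [h5, h4]
    group
  exact eq_one_of_pow hl two_ne_zero h3

include hl in
/-- The main step: no left order on a nontrivial quotient in which `μ ^ p λ ^ q = 1`, `p ≠ 0`. -/
theorem core [Nontrivial Q] {v z : Q} (hgen : Subgroup.closure {v, z} = ⊤)
    (hW : relW v z = 1) {p q : ℤ} (hp : p ≠ 0) (h : mu v z ^ p * lam v z ^ q = 1) : False := by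
  by_cases hlam : lam v z = 1
  · have h1 : v ^ 2 * z = 1 := core_zero hl hW one_ne_zero (by rw [hlam, one_zpow])
    rw [hlam, one_zpow, mul_one] at h
    have h2 : mu v z = 1 := eq_one_of_zpow hl hp h
    have h3 : v = z ^ 2 := by
      have e : v = mu v z * z ^ 2 := by
        unfold mu
        group
      rw [e, h2, one_mul]
    have h4 : z ^ 5 = 1 := by
      have e : z ^ 5 = (z ^ 2) ^ 2 * z := by group
      rw [e, ← h3, h1]
    have h5 : z = 1 := eq_one_of_pow hl (by norm_num) h4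
    have h6 : v = 1 := by rw [h3, h5, one_pow]
    have h7 : (⊤ : Subgroup Q) ≤ ⊥ := by
      rw [← hgen, Subgroup.closure_le]
      rintro g (rfl | rfl)
      · simp [h6]
      · simp [h5]
    obtain ⟨g, hg⟩ := exists_ne (1 : Q)
    exact hg (Subgroup.mem_bot.1 (h7 (Subgroup.mem_top g)))
  · have h1 := not_up_lam hl hW
    have h2 := not_down_lam hl hW
    unfold Up at h1
    unfold Down at h2
    push Not at h1 h2
    obtain ⟨x, hx⟩ := h1
    obtain ⟨y, hy⟩ := h2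
    have hne : ∀ w : Q, lam v z * w ≠ w := by
      intro w hw
      exact hlam (by simpa using hw)
    obtain ⟨L, hL, ⟨a, ha⟩, ⟨b, hb⟩, h3, h4⟩ := exists_cut hl (lt_of_le_of_ne hy (hne y).symm)
      (lt_of_le_of_ne hx (hne x))
    -- the longitude, hence `μ ^ p`, hence `μ` fixes the cut
    have hl1 : ∀ n : ℤ, lam v z ^ n ∈ upMonoid L := by
      intro n
      rcases Int.eq_nat_or_neg n with ⟨m, rfl | rfl⟩
      · rw [zpow_natCast]
        exact (upMonoid L).pow_mem h3 m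
      · rw [zpow_neg, zpow_natCast, ← inv_pow]
        exact (upMonoid L).pow_mem h4 m
    have hmp : mu v z ^ p = lam v z ^ (-q) := by
      rw [zpow_neg]
      exact eq_inv_of_mul_eq_one_left h
    have hmu := root_mem hl hL hp (by rw [hmp]; exact hl1 _)
      (by rw [hmp, ← zpow_neg]; exact hl1 _)
    obtain ⟨k1, k2, k3, k4⟩ := all_fixed hW (mem_or_inv_mem hl hL z) hmu.1 hmu.2
    -- everything fixes the cut
    have hall : ∀ g : Q, g ∈ upMonoid L := by
      intro g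
      have hg : g ∈ Subgroup.closure {v, z} := by
        rw [hgen]
        exact Subgroup.mem_top g
      have : g ∈ upMonoid L ∧ g⁻¹ ∈ upMonoid L := by
        induction hg using Subgroup.closure_induction with
        | mem w hw =>
          rcases hw with rfl | rfl
          · exact ⟨k1, k2⟩
          · exact ⟨k3, k4⟩
        | one => exact ⟨(upMonoid L).one_mem, by rw [inv_one]; exact (upMonoid L).one_mem⟩
        | mul u w _ _ hu hw =>
          exact ⟨(upMonoid L).mul_mem hu.1 hw.1, by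
            rw [mul_inv_rev]
            exact (upMonoid L).mul_mem hw.2 hu.2⟩
        | inv u _ hu => exact ⟨hu.2, by rw [inv_inv]; exact hu.1⟩
      exact this.1
    have := hall (a * b⁻¹) a ha
    apply hb
    simpa using this

end Order

end Pool.Agent.Helper20.OC
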