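import Mathlib

/-!
Fundamental groups of Dehn fillings read off from an ideal triangulation.

A face pairing of `n` tetrahedra (vertices `0,1,2,3`, face `f` opposite to vertex `f`) glues face `f`
of tetrahedron `t` to a face of tetrahedron `nbr t f`; the vertex `v ≠ f` of `t` is glued to
the vertex `glue t f v`, and `glue t f f` is the vertex opposite to the face on the other side.
The manifold `M` is the union of the tetrahedra without their vertices.  It deformation retracts
to the dual 2-complex: one point in every tetrahedron, one edge across every face, one disc around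
every edge.
-/

namespace Pool.Agent.Helper20.OC

/-- An ideal triangulation with `n` tetrahedra (a consistent pairing of all faces). -/
structure Triangulation (n : ℕ) where
  /-- the tetrahedron on the other side of the face `f` of `t` -/
  nbr : Fin n → Fin 4 → Fin n
  /-- the gluing of the vertices (`glue t f f` is the vertex opposite to the glued face) -/
  glue : Fin n → Fin 4 → Fin 4 → Fin 4
  nbr_nbr : ∀ t f, nbr (nbr t f) (glue t f f) = t
  glue_glue : ∀ t f v, glue (nbr t f) (glue t f f) (glue t f v) = v

variable {n : ℕ} (T : Triangulation n)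

/-- Turning around an edge.  The state `(t, k, l)` means: we are in the tetrahedron `t`, at its
edge contained in the faces `k` and `l` (that is, the edge joining the two other vertices), and we
are going to leave `t` through the face `l`. -/
def turn (s : Fin n × Fin 4 × Fin 4) : Fin n × Fin 4 × Fin 4 :=
  (T.nbr s.1 s.2.2, T.glue s.1 s.2.2 s.2.2, T.glue s.1 s.2.2 s.2.1)

/-- The word read while turning `m` times around an edge, in letters `(t, f)`: crossing the face
`f` from the tetrahedron `t`. -/
def turnWord (s : Fin n × Fin 4 × Fin 4) : ℕ → FreeGroup (Fin n × Fin 4)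
  | 0 => 1
  | m + 1 => turnWord s m * FreeGroup.of (((turn T)^[m] s).1, ((turn T)^[m] s).2.2)

/-- The relations of the fundamental groupoid: crossing a face and coming back is trivial, and
turning around an edge until the start is trivial. -/
inductive IsRelator : FreeGroup (Fin n × Fin 4) → Prop
  | face (t : Fin n) (f : Fin 4) :
      IsRelator (FreeGroup.of (t, f) * FreeGroup.of (T.nbr t f, T.glue t f f))
  | edge (t : Fin n) (k l : Fin 4) (m : ℕ) (hkl : k ≠ l) (hm : (turn T)^[m] (t, k, l) = (t, k, l)) :
      IsRelator (turnWord T (t, k, l) m)

/-- The universal group of the fundamental groupoid of the dual 2-complex, with base points in the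
tetrahedra: generated by the crossings of faces. -/
abbrev FaceGroup : Type := PresentedGroup {w | IsRelator T w}

/-- The crossing of the face `f` from the tetrahedron `t`. -/
def cross (t : Fin n) (f : Fin 4) : FaceGroup T := PresentedGroup.of (t, f)

/-- The tetrahedron reached from `t` by crossing the faces of a list. -/
def pathEnd : Fin n → List (Fin 4) → Fin n
  | t, [] => t
  | t, f :: fs => pathEnd (T.nbr t f) fs

/-- The element of `FaceGroup` of the path which starts in `t` and crosses the faces of a list. -/
def pathVal : Fin n → List (Fin 4) → FaceGroup T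
  | _, [] => 1
  | t, f :: fs => cross T t f * pathVal (T.nbr t f) fs

/-- The fundamental group of `M` with base point in the tetrahedron `t`: all closed paths at `t`. -/
def fundGroup (t : Fin n) : Subgroup (FaceGroup T) :=
  Subgroup.closure {g | ∃ fs, pathEnd T t fs = t ∧ g = pathVal T t fs}

/-- `IsCuspPath c fs d`: the path which crosses the faces `fs` stays near the ideal vertex: it goes
from the corner `c = (t, v)` (the tip of the tetrahedron `t` at its vertex `v`) to the corner `d`.
From the corner `(t, v)` one can cross the three faces `f ≠ v`. -/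
inductive IsCuspPath : Fin n × Fin 4 → List (Fin 4) → Fin n × Fin 4 → Prop
  | nil (c : Fin n × Fin 4) : IsCuspPath c [] c
  | cons (t : Fin n) (v f : Fin 4) (fs : List (Fin 4)) (d : Fin n × Fin 4) (hf : f ≠ v)
      (h : IsCuspPath (T.nbr t f, T.glue t f v) fs d) : IsCuspPath (t, v) (f :: fs) d

/-- The peripheral subgroup: closed paths near the ideal vertex, based at the corner `(t, v)`.
It is the image of the fundamental group of the boundary component at this ideal vertex. -/
def peripheral (t : Fin n) (v : Fin 4) : Subgroup (FaceGroup T) :=
  Subgroup.closure {g | ∃ fs, IsCuspPath T (t, v) fs (t, v) ∧ g = pathVal T t fs}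

/-- The fundamental group of the Dehn filling in which the closed curve `α` bounds a disc:
the fundamental group of `M` modulo the normal closure of `α`. -/
abbrev fillingGroup (t : Fin n) (α : fundGroup T t) : Type :=
  (fundGroup T t) ⧸ Subgroup.normalClosure {α}

/-- A group is left-orderable if it is nontrivial and has a strict total order invariant under
left multiplication. -/
def LeftOrderable (G : Type) [Group G] : Prop :=
  Nontrivial G ∧ ∃ lt : G → G → Prop, IsStrictTotalOrder G lt ∧
    ∀ f g h : G, lt g h → lt (f * g) (f * h)

/-- The neighbours of the seven tetrahedra in the triangulation of `v2503`. -/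
def nbrTable : Fin 7 → Fin 4 → Fin 7 :=
  ![![0, 0, 1, 2], ![3, 4, 0, 3], ![5, 3, 6, 0], ![1, 6, 1, 2], ![5, 1, 5, 6],
    ![2, 4, 6, 4], ![5, 4, 2, 3]]

/-- The gluings of the four faces of the tetrahedron `0`: entry `v` of row `f` is the image of the
vertex `v`. -/
def glue0 : Fin 4 → Fin 4 → Fin 4 :=
  ![![1, 2, 3, 0], ![3, 0, 1, 2], ![0, 1, 2, 3], ![0, 1, 2, 3]]

/-- The gluings of the four faces of the tetrahedron `1`: entry `v` of row `f` is the image of the
vertex `v`. -/
def glue1 : Fin 4 → Fin 4 → Fin 4 :=
  ![![0, 1, 2, 3], ![0, 1, 2, 3], ![0, 1, 2, 3], ![0, 3, 1, 2]]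

/-- The gluings of the four faces of the tetrahedron `2`: entry `v` of row `f` is the image of the
vertex `v`. -/
def glue2 : Fin 4 → Fin 4 → Fin 4 :=
  ![![0, 1, 2, 3], ![1, 3, 2, 0], ![0, 1, 2, 3], ![0, 1, 2, 3]]

/-- The gluings of the four faces of the tetrahedron `3`: entry `v` of row `f` is the image of the
vertex `v`. -/
def glue3 : Fin 4 → Fin 4 → Fin 4 :=
  ![![0, 1, 2, 3], ![0, 3, 2, 1], ![0, 2, 3, 1], ![3, 0, 2, 1]]

/-- The gluings of the four faces of the tetrahedron `4`: entry `v` of row `f` is the image of the
vertex `v`. -/
def glue4 : Fin 4 → Fin 4 → Fin 4 :=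
  ![![1, 2, 3, 0], ![0, 1, 2, 3], ![0, 1, 3, 2], ![3, 2, 0, 1]]

/-- The gluings of the four faces of the tetrahedron `5`: entry `v` of row `f` is the image of the
vertex `v`. -/
def glue5 : Fin 4 → Fin 4 → Fin 4 :=
  ![![0, 1, 2, 3], ![3, 0, 1, 2], ![1, 3, 0, 2], ![0, 1, 3, 2]]

/-- The gluings of the four faces of the tetrahedron `6`: entry `v` of row `f` is the image of the
vertex `v`. -/
def glue6 : Fin 4 → Fin 4 → Fin 4 :=
  ![![2, 0, 3, 1], ![2, 3, 1, 0], ![0, 1, 2, 3], ![0, 3, 2, 1]]

/-- The ideal triangulation of the census manifold `v2503` used here (isomorphism signature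
`hLLLQkbddgfggfewrxvsgj`). -/
def v2503 : Triangulation 7 where
  nbr := nbrTable
  glue := ![glue0, glue1, glue2, glue3, glue4, glue5, glue6]
  nbr_nbr := by decide
  glue_glue := by decide

end Pool.Agent.Helper20.OC
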