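import Pool.Agent.Helper20.OC.Periph

/-!
A homomorphism to the group with two elements which kills `v` and `λ` but not `z`.
-/

namespace Pool.Agent.Helper20.OC

/-- the parity of a crossing -/
def epsT : Fin 7 → Fin 4 → ZMod 2 :=
  ![![1, 1, 0, 0], ![0, 0, 0, 0], ![0, 1, 0, 0], ![0, 0, 0, 1], ![0, 0, 1, 1], ![0, 0, 0, 1],
    ![0, 1, 0, 0]]

/-- a potential for the parity along the turns around the edges -/
def psiT : Fin 7 → Fin 4 → Fin 4 → ZMod 2 :=
  ![![![0, 0, 0, 1], ![0, 0, 1, 0], ![1, 1, 0, 0], ![1, 1, 0, 0]],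
    ![![0, 0, 1, 1], ![0, 0, 1, 0], ![0, 1, 0, 0], ![0, 0, 0, 0]],
    ![![0, 0, 0, 1], ![0, 0, 1, 1], ![0, 1, 0, 0], ![1, 0, 0, 0]],
    ![![0, 0, 0, 0], ![0, 0, 0, 1], ![1, 0, 0, 0], ![1, 1, 0, 0]],
    ![![0, 0, 0, 0], ![0, 0, 1, 0], ![0, 1, 0, 1], ![0, 0, 1, 0]],
    ![![0, 0, 0, 1], ![0, 0, 0, 0], ![0, 0, 0, 0], ![1, 0, 0, 0]],
    ![![0, 0, 0, 0], ![0, 0, 1, 1], ![0, 1, 0, 0], ![0, 1, 0, 0]]]

theorem psi_turn : ∀ (t : Fin 7) (k l : Fin 4), k ≠ l →
    psiT (turn v2503 (t, k, l)).1 (turn v2503 (t, k, l)).2.1 (turn v2503 (t, k, l)).2.2 =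
      psiT t k l + epsT t l := by
  decide +kernel

theorem ne_turn : ∀ (t : Fin 7) (k l : Fin 4), k ≠ l →
    (turn v2503 (t, k, l)).2.1 ≠ (turn v2503 (t, k, l)).2.2 := by
  decide +kernel

theorem eps_face : ∀ (t : Fin 7) (f : Fin 4),
    epsT t f + epsT (v2503.nbr t f) (v2503.glue t f f) = 0 := by
  decide +kernel

/-- the parity on words -/
def epsF : FreeGroup (Fin 7 × Fin 4) →* Multiplicative (ZMod 2) :=
  FreeGroup.lift fun x => Multiplicative.ofAdd (epsT x.1 x.2)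

theorem iterate_ne (t : Fin 7) (k l : Fin 4) (hkl : k ≠ l) : ∀ m : ℕ,
    ((turn v2503)^[m] (t, k, l)).2.1 ≠ ((turn v2503)^[m] (t, k, l)).2.2
  | 0 => hkl
  | m + 1 => by
    rw [Function.iterate_succ_apply']
    exact ne_turn _ _ _ (iterate_ne t k l hkl m)

theorem eps_turnWord (t : Fin 7) (k l : Fin 4) (hkl : k ≠ l) : ∀ m : ℕ,
    Multiplicative.ofAdd (psiT t k l) * epsF (turnWord v2503 (t, k, l) m) =
      Multiplicative.ofAdd (psiT ((turn v2503)^[m] (t, k, l)).1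
        ((turn v2503)^[m] (t, k, l)).2.1 ((turn v2503)^[m] (t, k, l)).2.2)
  | 0 => by simp [turnWord]
  | m + 1 => by
    rw [turnWord, map_mul, ← mul_assoc, eps_turnWord t k l hkl m, Function.iterate_succ_apply']
    have h := psi_turn ((turn v2503)^[m] (t, k, l)).1 ((turn v2503)^[m] (t, k, l)).2.1
      ((turn v2503)^[m] (t, k, l)).2.2 (iterate_ne t k l hkl m)
    rw [h, ofAdd_add]
    simp [epsF]

theorem eps_rel : ∀ r ∈ {w | IsRelator v2503 w},
    FreeGroup.lift (fun x : Fin 7 × Fin 4 => Multiplicative.ofAdd (epsT x.1 x.2)) r = 1 := by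
  rintro r hr
  rcases hr with ⟨t, f⟩ | ⟨t, k, l, m, hkl, hm⟩
  · rw [map_mul, FreeGroup.lift_apply_of, FreeGroup.lift_apply_of, ← ofAdd_add, eps_face, ofAdd_zero]
  · have h := eps_turnWord t k l hkl m
    rw [hm] at h
    exact mul_left_cancel (h.trans (mul_one _).symm)

/-- the parity on the face group -/
def eps : FaceGroup v2503 →* Multiplicative (ZMod 2) := PresentedGroup.toGroup eps_rel

theorem eps_X (t : Fin 7) (f : Fin 4) : eps (X t f) = Multiplicative.ofAdd (epsT t f) :=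
  PresentedGroup.toGroup.of eps_rel

theorem eps_gz : eps gz = Multiplicative.ofAdd 1 := by
  rw [gz_eq, eps_X]
  rfl

theorem eps_gv : eps gv = 1 := by
  rw [gv_eq]
  simp only [map_mul, eps_X]
  decide

end Pool.Agent.Helper20.OC
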