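import Pool.Agent.Helper20.OC.Words

/-!
The fundamental group of `v2503` is generated by `v` and `z`; its peripheral subgroup consists of
the elements `μ ^ p * λ ^ q`.
-/

namespace Pool.Agent.Helper20.OC

/-- the word of a path -/
def pathWord : Fin 7 → List (Fin 4) → FW
  | _, [] => 1
  | t, f :: fs => wd t f * pathWord (v2503.nbr t f) fs

theorem pathVal_eq : ∀ (fs : List (Fin 4)) (t : Fin 7),
    pathVal v2503 t fs = (sp t)⁻¹ * phi (pathWord t fs) * sp (pathEnd v2503 t fs)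
  | [], t => by
    change (1 : FaceGroup v2503) = (sp t)⁻¹ * phi 1 * sp t
    rw [map_one]
    group
  | f :: fs, t => by
    change X t f * pathVal v2503 (v2503.nbr t f) fs =
      (sp t)⁻¹ * phi (wd t f * pathWord (v2503.nbr t f) fs) *
        sp (pathEnd v2503 (v2503.nbr t f) fs)
    rw [pathVal_eq fs (v2503.nbr t f), cross_eq, map_mul]
    group

theorem phi_range : phi.range = Subgroup.closure {gv, gz} := by
  rw [phi, FreeGroup.range_lift_eq_closure]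
  congr 1
  ext x
  simp [or_comm]

theorem gz_eq : gz = X 0 1 := by
  rw [inv_01, all_eight.1, inv_inv]

theorem gv_eq : gv = X 0 3 * X 2 1 * X 3 0 * X 1 2 * X 0 0 := by
  have h := all_eight.2.2.1
  rw [inv_30, inv_12, all_eight.1]
  have : gv = (gv * gz) * gz⁻¹ := by group
  rw [this, ← h]
  group

theorem gz_mem : gz ∈ fundGroup v2503 0 :=
  Subgroup.subset_closure ⟨[1], rfl, by
    rw [gz_eq]
    exact (mul_one _).symm⟩

theorem gv_mem : gv ∈ fundGroup v2503 0 :=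
  Subgroup.subset_closure ⟨[3, 1, 0, 2, 0], rfl, by
    rw [gv_eq]
    change _ = X 0 3 * (X 2 1 * (X 3 0 * (X 1 2 * (X 0 0 * 1))))
    simp only [mul_one, mul_assoc]⟩

theorem fund_eq : fundGroup v2503 0 = Subgroup.closure {gv, gz} := by
  apply le_antisymm
  · rw [fundGroup, Subgroup.closure_le]
    rintro g ⟨fs, h1, rfl⟩
    rw [SetLike.mem_coe, pathVal_eq, h1, ← phi_range]
    refine ⟨pathWord 0 fs, ?_⟩
    change phi (pathWord 0 fs) = (1 : FaceGroup v2503)⁻¹ * phi (pathWord 0 fs) * 1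
    group
  · rw [Subgroup.closure_le]
    rintro g (rfl | rfl)
    · exact gv_mem
    · exact gz_mem

/-- the subgroup generated by `μ` and `λ` -/
def per : Subgroup (FaceGroup v2503) := Subgroup.closure {mu gv gz, lam gv gz}

/-- the word of `μ` -/
def MU : FW := mu (FreeGroup.of 0) (FreeGroup.of 1)

/-- the word of `λ` -/
def LA : FW := lam (FreeGroup.of 0) (FreeGroup.of 1)

theorem phi_MU : phi MU = mu gv gz := by
  simp [MU, mu, phi]

theorem phi_LA : phi LA = lam gv gz := by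
  simp [LA, lam, phi]

theorem cusp_words : ∀ (t : Fin 7) (v f : Fin 4), f ≠ v →
    (t, v, f) ≠ (4, 3, 2) → (t, v, f) ≠ (5, 2, 3) →
    hd t v * wd t f * (hd (v2503.nbr t f) (v2503.glue t f v))⁻¹ ∈
      [1, MU, MU⁻¹, LA, LA⁻¹, LA⁻¹ * MU, MU⁻¹ * LA] := by
  decide +kernel

/-- Another word for the longitude. -/
theorem lam_alt {Q : Type} [Group Q] {v z : Q} (hW : relW v z = 1) :
    lam v z = v⁻¹ ^ 2 * z⁻¹ * v⁻¹ ^ 3 * z⁻¹ * v⁻¹ ^ 2 * z⁻¹ * v⁻¹ ^ 3 * z⁻¹ * v⁻¹ ^ 2 * z⁻¹ ^ 2 := by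
  have h : lam v z *
      (v⁻¹ ^ 2 * z⁻¹ * v⁻¹ ^ 3 * z⁻¹ * v⁻¹ ^ 2 * z⁻¹ * v⁻¹ ^ 3 * z⁻¹ * v⁻¹ ^ 2 * z⁻¹ ^ 2)⁻¹ =
      (v * z * (v ^ 2 * z * v ^ 3 * z * v ^ 2 * z * v ^ 3 * z * v ^ 3 * z)⁻¹) * relW v z *
        (v * z * (v ^ 2 * z * v ^ 3 * z * v ^ 2 * z * v ^ 3 * z * v ^ 3 * z)⁻¹)⁻¹ := by
    simp only [lam, relW, pow_succ, pow_zero, one_mul, mul_inv_rev, inv_inv, mul_assoc,
        inv_mul_cancel_left, mul_inv_cancel_left, mul_inv_cancel, mul_one]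
  rw [hW, mul_one, mul_inv_cancel] at h
  exact mul_inv_eq_one.1 h

/-- The longitude and the meridian commute. -/
theorem commute_mu_lam {Q : Type} [Group Q] {v z : Q} (hW : relW v z = 1) :
    Commute (mu v z) (lam v z) := by
  have h : (lam v z)⁻¹ * mu v z *
      (v⁻¹ ^ 2 * z⁻¹ * v⁻¹ ^ 3 * z⁻¹ * v⁻¹ ^ 2 * z⁻¹ * v⁻¹ ^ 3 * z⁻¹ * v⁻¹ ^ 2 * z⁻¹ ^ 2) *
      (mu v z)⁻¹ =
      (z⁻¹ * v⁻¹ ^ 2 * z⁻¹ * v⁻¹ ^ 3 * z⁻¹ * v⁻¹ ^ 2) * (relW v z)⁻¹ *
        (z⁻¹ * v⁻¹ ^ 2 * z⁻¹ * v⁻¹ ^ 3 * z⁻¹ * v⁻¹ ^ 2)⁻¹ := by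
    unfold lam relW mu
    simp only [pow_succ, pow_zero, one_mul]
    group
  rw [← lam_alt hW, hW, inv_one, mul_one, mul_inv_cancel] at h
  have h2 : mu v z * lam v z = lam v z * mu v z := by
    have h3 := mul_inv_eq_one.1 h
    rw [mul_assoc] at h3
    exact (inv_mul_eq_iff_eq_mul.1 h3)
  exact h2

theorem cusp_step (t : Fin 7) (v f : Fin 4) (hf : f ≠ v) :
    phi (hd t v * wd t f * (hd (v2503.nbr t f) (v2503.glue t f v))⁻¹) ∈ per := by
  have hm : mu gv gz ∈ per := Subgroup.subset_closure (by simp)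
  have hl : lam gv gz ∈ per := Subgroup.subset_closure (by simp)
  have hW := all_eight.2.2.2.2.2.2.2.2
  have key : phi (hd 4 3 * wd 4 2 * (hd 5 2)⁻¹) = lam gv gz := by
    rw [lam_alt hW]
    have : hd 4 3 * wd 4 2 * (hd 5 2)⁻¹ = (fun a b : FW => a⁻¹ ^ 2 * b⁻¹ * a⁻¹ ^ 3 * b⁻¹ *
      a⁻¹ ^ 2 * b⁻¹ * a⁻¹ ^ 3 * b⁻¹ * a⁻¹ ^ 2 * b⁻¹ ^ 2) (FreeGroup.of 0) (FreeGroup.of 1) := by
      decide +kernel
    rw [this]
    simp [phi]
  by_cases h1 : (t, v, f) = (4, 3, 2)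
  · obtain ⟨rfl, rfl, rfl⟩ : t = 4 ∧ v = 3 ∧ f = 2 := by simpa using h1
    change phi (hd 4 3 * wd 4 2 * (hd 5 2)⁻¹) ∈ per
    rw [key]
    exact hl
  by_cases h2 : (t, v, f) = (5, 2, 3)
  · obtain ⟨rfl, rfl, rfl⟩ : t = 5 ∧ v = 2 ∧ f = 3 := by simpa using h2
    change phi (hd 5 2 * wd 5 3 * (hd 4 3)⁻¹) ∈ per
    have : hd 5 2 * wd 5 3 * (hd 4 3)⁻¹ = (hd 4 3 * wd 4 2 * (hd 5 2)⁻¹)⁻¹ := by
      decide +kernel
    rw [this, map_inv, key]
    exact per.inv_mem hl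
  have h := cusp_words t v f hf h1 h2
  simp only [List.mem_cons, List.not_mem_nil, or_false] at h
  rcases h with h | h | h | h | h | h | h <;> rw [h]
  · rw [map_one]
    exact per.one_mem
  · rw [phi_MU]
    exact hm
  · rw [map_inv, phi_MU]
    exact per.inv_mem hm
  · rw [phi_LA]
    exact hl
  · rw [map_inv, phi_LA]
    exact per.inv_mem hl
  · rw [map_mul, map_inv, phi_MU, phi_LA]
    exact per.mul_mem (per.inv_mem hl) hm
  · rw [map_mul, map_inv, phi_MU, phi_LA]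
    exact per.mul_mem (per.inv_mem hm) hl

theorem cusp_path {c d : Fin 7 × Fin 4} {fs : List (Fin 4)} (h : IsCuspPath v2503 c fs d) :
    phi (hd c.1 c.2) * sp c.1 * pathVal v2503 c.1 fs * (sp d.1)⁻¹ * (phi (hd d.1 d.2))⁻¹ ∈ per := by
  induction h with
  | nil c =>
    change phi (hd c.1 c.2) * sp c.1 * 1 * (sp c.1)⁻¹ * (phi (hd c.1 c.2))⁻¹ ∈ per
    have : phi (hd c.1 c.2) * sp c.1 * 1 * (sp c.1)⁻¹ * (phi (hd c.1 c.2))⁻¹ = 1 := by group
    rw [this]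
    exact per.one_mem
  | cons t v f fs d hf h ih =>
    have h1 := per.mul_mem (cusp_step t v f hf) ih
    have h2 : phi (hd t v) * sp t * (X t f * pathVal v2503 (v2503.nbr t f) fs) * (sp d.1)⁻¹ *
        (phi (hd d.1 d.2))⁻¹ ∈ per := by
      rw [cross_eq]
      convert h1 using 1
      simp only [map_mul, map_inv]
      group
    exact h2

theorem peripheral_le : peripheral v2503 0 0 ≤ per := by
  rw [peripheral, Subgroup.closure_le]
  rintro g ⟨fs, h, rfl⟩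
  have h1 := cusp_path h
  have e : phi (hd 0 0) = 1 := by
    rw [show hd 0 0 = 1 from rfl, map_one]
  have e2 : sp 0 = 1 := rfl
  simp only [e, e2, inv_one, mul_one, one_mul] at h1
  exact h1

theorem mem_per {g : FaceGroup v2503} (hg : g ∈ per) :
    ∃ p q : ℤ, g = mu gv gz ^ p * lam gv gz ^ q := by
  have hc := commute_mu_lam all_eight.2.2.2.2.2.2.2.2
  induction hg using Subgroup.closure_induction with
  | mem w hw =>
    rcases hw with rfl | rfl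
    · exact ⟨1, 0, by simp⟩
    · exact ⟨0, 1, by simp⟩
  | one => exact ⟨0, 0, by simp⟩
  | mul u w _ _ hu hw =>
    obtain ⟨p, q, rfl⟩ := hu
    obtain ⟨p', q', rfl⟩ := hw
    refine ⟨p + p', q + q', ?_⟩
    rw [zpow_add, zpow_add, mul_assoc, mul_assoc, ← mul_assoc (lam gv gz ^ q),
      ((hc.zpow_zpow p' q).eq).symm, mul_assoc]
  | inv u _ hu =>
    obtain ⟨p, q, rfl⟩ := hu
    refine ⟨-p, -q, ?_⟩
    rw [mul_inv_rev, zpow_neg, zpow_neg, ← zpow_neg, ← zpow_neg]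
    exact ((hc.zpow_zpow (-p) (-q)).eq).symm

end Pool.Agent.Helper20.OC
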