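import Pool.Agent.Helper20.OC.Core

/-!
Elimination of generators: the seven edge relations of the triangulation of `v2503` in an
arbitrary group.
-/

namespace Pool.Agent.Helper20.OC

/-- the generator `v` -/
def vOf {Q : Type} [Group Q] (x02 x03 x10 x21 x22 x31 : Q) : Q :=
  (x03 * x21 * (x02 * x10)⁻¹) * (x02 * x10 * x31 * (x03 * x22)⁻¹) *
    (x03 * x21 * (x02 * x10)⁻¹)⁻¹

/-- the generator `z` -/
def zOf {Q : Type} [Group Q] (x02 x03 x10 x21 x22 x31 : Q) : Q :=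
  (x03 * x21 * (x02 * x10)⁻¹) * (x02 * x10 * x31 * (x03 * x22)⁻¹)⁻¹

/-- The eight generators from the seven relations. -/
theorem eight {Q : Type} [Group Q] {g1 g2 g3 g4 g5 g6 g7 g8 : Q}
    (r1 : g4⁻¹ * g2⁻¹ = 1) (r2 : g3 * g2 * g1 = 1) (r3 : g6 * g5⁻¹ * g6 * g1 * g1 = 1)
    (r4 : g2 * g3⁻¹ * g7⁻¹ = 1) (r5 : g5 * g8 * g4⁻¹ = 1) (r6 : g8⁻¹ * g6⁻¹ * g7 * g8⁻¹ = 1)
    (r7 : g3 * g4 * g7⁻¹ * g5 = 1) :
    let v := g3 * g4 * g3⁻¹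
    let z := g3 * g4⁻¹
    g1 = z⁻¹ ∧ g2 = z⁻¹ * v⁻¹ * z ∧ g3 = v * z ∧ g4 = z⁻¹ * v * z ∧
      g5 = z⁻¹ * v⁻¹ ^ 2 * z⁻¹ * v⁻¹ ^ 2 ∧
      g6 = z⁻¹ * v⁻¹ ^ 2 * z⁻¹ * v⁻¹ ^ 3 * z⁻¹ * v⁻¹ ^ 2 * z⁻¹ * v⁻¹ ^ 3 * z⁻¹ * v⁻¹ ^ 2 ∧
      g7 = z⁻¹ * v⁻¹ ^ 2 ∧ g8 = v ^ 2 * z * v ^ 3 * z ∧ relW v z = 1 := by
  intro v z
  have e2 : g2 = g4⁻¹ := by
    have : g2⁻¹ = g4 := by
      rw [← inv_inv g4]
      exact eq_inv_of_mul_eq_one_right r1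
    rw [← this, inv_inv]
  have e1 : g1 = g4 * g3⁻¹ := by
    have : g1 = (g3 * g2)⁻¹ := eq_inv_of_mul_eq_one_right r2
    rw [this, e2]
    group
  have e7 : g7 = g4⁻¹ * g3⁻¹ := by
    have : g7⁻¹ = (g2 * g3⁻¹)⁻¹ := eq_inv_of_mul_eq_one_right r4
    rw [inv_inj] at this
    rw [this, e2]
  have e5 : g5 = g4⁻¹ * g3⁻¹ * g4⁻¹ * g3⁻¹ := by
    have : g5 = (g3 * g4 * g7⁻¹)⁻¹ := eq_inv_of_mul_eq_one_right r7
    rw [this, e7]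
    group
  have e8 : g8 = g3 * g4 * g3 * g4 * g4 := by
    have h : g4⁻¹ = (g5 * g8)⁻¹ := eq_inv_of_mul_eq_one_right r5
    rw [inv_inj] at h
    have : g8 = g5⁻¹ * g4 := by
      have h2 : g5⁻¹ * g4 = g5⁻¹ * (g5 * g8) := congrArg (fun y => g5⁻¹ * y) h
      rw [h2, inv_mul_cancel_left]
    rw [this, e5]
    group
  have e6 : g6 = g4⁻¹ * g3⁻¹ * g4⁻¹ * g4⁻¹ * g3⁻¹ * g4⁻¹ * g3⁻¹ * g4⁻¹ * g4⁻¹ * g3⁻¹ *
      g4⁻¹ * g3⁻¹ := by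
    have : g6 = g7 * g8⁻¹ * g8⁻¹ := by
      have h : g8⁻¹ * g6⁻¹ = (g7 * g8⁻¹)⁻¹ := by
        apply eq_inv_of_mul_eq_one_left
        rw [← r6]
        group
      have h2 : g6⁻¹ = g8 * (g7 * g8⁻¹)⁻¹ := by
        rw [← h]
        group
      have h3 : g6 = (g8 * (g7 * g8⁻¹)⁻¹)⁻¹ := by rw [← h2, inv_inv]
      rw [h3]
      group
    rw [this, e7, e8]
    group
  have hW : relW v z = 1 := by
    have h : relW v z = (g4 * g3⁻¹ * g4 * g3⁻¹) * (g6 * g5⁻¹ * g6 * g1 * g1)⁻¹ *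
        (g4 * g3⁻¹ * g4 * g3⁻¹)⁻¹ := by
      rw [e1, e5, e6]
      simp only [relW, v, z, pow_succ, pow_zero, one_mul, mul_inv_rev, inv_inv, mul_assoc,
        inv_mul_cancel_left, mul_inv_cancel_left, inv_mul_cancel, mul_inv_cancel, mul_one]
    rw [h, r3]
    group
  refine ⟨?_, ?_, ?_, ?_, ?_, ?_, ?_, ?_, hW⟩
  · rw [e1]
    simp only [z]
    group
  · rw [e2]
    simp only [v, z]
    group
  · simp only [v, z]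
    group
  · simp only [v, z]
    group
  · rw [e5]
    simp only [v, z, pow_succ, pow_zero, one_mul, mul_inv_rev, inv_inv, mul_assoc,
        inv_mul_cancel_left, mul_inv_cancel_left, inv_mul_cancel, mul_inv_cancel, mul_one]
  · rw [e6]
    simp only [v, z, pow_succ, pow_zero, one_mul, mul_inv_rev, inv_inv, mul_assoc,
        inv_mul_cancel_left, mul_inv_cancel_left, inv_mul_cancel, mul_inv_cancel, mul_one]
  · rw [e7]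
    simp only [v, z, pow_succ, pow_zero, one_mul, mul_inv_rev, inv_inv, mul_assoc,
        inv_mul_cancel_left, mul_inv_cancel_left, inv_mul_cancel, mul_inv_cancel, mul_one]
  · rw [e8]
    simp only [v, z, pow_succ, pow_zero, one_mul, mul_inv_rev, inv_inv, mul_assoc,
        inv_mul_cancel_left, mul_inv_cancel_left, inv_mul_cancel, mul_inv_cancel, mul_one]

/-- The seven edge relations imply the relations of the eight generators. -/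
theorem edges_to_eight {Q : Type} [Group Q]
    {x00 x02 x03 x10 x11 x13 x20 x21 x22 x31 x40 x42 x43 x52 : Q}
    (r1 : x03 * x22 * x31⁻¹ * x13⁻¹ * x02⁻¹ = 1)
    (r2 : x03 * x21 * x10⁻¹ * x13 * x10⁻¹ * x02⁻¹ * x00 = 1)
    (r3 : x02 * x11 * x42 * x40⁻¹ * x42 * x20⁻¹ * x03⁻¹ * x00 * x00 = 1)
    (r4 : x13 * x21⁻¹ * x22 * x43⁻¹ * x11⁻¹ = 1)
    (r5 : x11 * x40 * x52 * x31⁻¹ * x10⁻¹ = 1)
    (r6 : x22 * x52⁻¹ * x42⁻¹ * x43 * x52⁻¹ * x20⁻¹ = 1)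
    (r7 : x21 * x31 * x43⁻¹ * x40 * x20⁻¹ = 1) :
    let g1 := x00
    let g2 := x02 * x13 * (x02 * x10)⁻¹
    let g3 := x03 * x21 * (x02 * x10)⁻¹
    let g4 := x02 * x10 * x31 * (x03 * x22)⁻¹
    let g5 := x02 * x11 * x40 * (x03 * x20)⁻¹
    let g6 := x02 * x11 * x42 * (x03 * x20)⁻¹
    let g7 := x02 * x11 * x43 * (x03 * x22)⁻¹
    let g8 := x03 * x20 * x52 * (x03 * x22)⁻¹
    g4⁻¹ * g2⁻¹ = 1 ∧ g3 * g2 * g1 = 1 ∧ g6 * g5⁻¹ * g6 * g1 * g1 = 1 ∧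
    g2 * g3⁻¹ * g7⁻¹ = 1 ∧ g5 * g8 * g4⁻¹ = 1 ∧ g8⁻¹ * g6⁻¹ * g7 * g8⁻¹ = 1 ∧
    g3 * g4 * g7⁻¹ * g5 = 1 := by
  intro g1 g2 g3 g4 g5 g6 g7 g8
  refine ⟨?_, ?_, ?_, ?_, ?_, ?_, ?_⟩
  · rw [← r1]
    simp only [g2, g4]
    group
  · rw [← r2]
    simp only [g1, g2, g3]
    group
  · rw [← r3]
    simp only [g1, g5, g6]
    group
  · have : g2 * g3⁻¹ * g7⁻¹ = x02 * (x13 * x21⁻¹ * x22 * x43⁻¹ * x11⁻¹) * x02⁻¹ := by
      simp only [g2, g3, g7]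
      group
    rw [this, r4]
    group
  · have : g5 * g8 * g4⁻¹ = x02 * (x11 * x40 * x52 * x31⁻¹ * x10⁻¹) * x02⁻¹ := by
      simp only [g4, g5, g8]
      group
    rw [this, r5]
    group
  · have : g8⁻¹ * g6⁻¹ * g7 * g8⁻¹ =
        x03 * (x22 * x52⁻¹ * x42⁻¹ * x43 * x52⁻¹ * x20⁻¹) * x03⁻¹ := by
      simp only [g6, g7, g8]
      group
    rw [this, r6]
    group
  · have : g3 * g4 * g7⁻¹ * g5 = x03 * (x21 * x31 * x43⁻¹ * x40 * x20⁻¹) * x03⁻¹ := by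
      simp only [g3, g4, g5, g7]
      group
    rw [this, r7]
    group

end Pool.Agent.Helper20.OC
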