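import Pool.Agent.Helper20.OC.Defs
import Pool.Agent.Helper20.OC.Solve

/-!
The relations of the face group of `v2503`, and the expression of every crossing by two elements
`v`, `z` and a choice of paths from the tetrahedron `0`.
-/

namespace Pool.Agent.Helper20.OC

theorem face_rel {n : ℕ} (T : Triangulation n) (t : Fin n) (f : Fin 4) :
    cross T t f * cross T (T.nbr t f) (T.glue t f f) = 1 := by
  have h := PresentedGroup.one_of_mem (rels := {w | IsRelator T w}) (IsRelator.face t f)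
  rwa [map_mul] at h

theorem edge_rel {n : ℕ} (T : Triangulation n) (t : Fin n) (k l : Fin 4) (m : ℕ) (hkl : k ≠ l)
    (hm : (turn T)^[m] (t, k, l) = (t, k, l)) :
    PresentedGroup.mk {w | IsRelator T w} (turnWord T (t, k, l) m) = 1 :=
  PresentedGroup.one_of_mem (IsRelator.edge t k l m hkl hm)

theorem mk_turnWord {n : ℕ} (T : Triangulation n) (s : Fin n × Fin 4 × Fin 4) (m : ℕ) :
    PresentedGroup.mk {w | IsRelator T w} (turnWord T s (m + 1)) =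
      PresentedGroup.mk {w | IsRelator T w} (turnWord T s m) *
        cross T ((turn T)^[m] s).1 ((turn T)^[m] s).2.2 := by
  rw [turnWord, map_mul]
  rfl

/-- The crossing of the face `f` from the tetrahedron `t` of `v2503`. -/
abbrev X (t : Fin 7) (f : Fin 4) : FaceGroup v2503 := cross v2503 t f

theorem inv_01 : X 0 1 = (X 0 0)⁻¹ :=
  eq_inv_of_mul_eq_one_right (face_rel v2503 0 0)

theorem inv_12 : X 1 2 = (X 0 2)⁻¹ :=
  eq_inv_of_mul_eq_one_right (face_rel v2503 0 2)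

theorem inv_23 : X 2 3 = (X 0 3)⁻¹ :=
  eq_inv_of_mul_eq_one_right (face_rel v2503 0 3)

theorem inv_30 : X 3 0 = (X 1 0)⁻¹ :=
  eq_inv_of_mul_eq_one_right (face_rel v2503 1 0)

theorem inv_32 : X 3 2 = (X 1 3)⁻¹ :=
  eq_inv_of_mul_eq_one_right (face_rel v2503 1 3)

theorem inv_33 : X 3 3 = (X 2 1)⁻¹ :=
  eq_inv_of_mul_eq_one_right (face_rel v2503 2 1)

theorem inv_41 : X 4 1 = (X 1 1)⁻¹ :=
  eq_inv_of_mul_eq_one_right (face_rel v2503 1 1)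

theorem inv_50 : X 5 0 = (X 2 0)⁻¹ :=
  eq_inv_of_mul_eq_one_right (face_rel v2503 2 0)

theorem inv_51 : X 5 1 = (X 4 0)⁻¹ :=
  eq_inv_of_mul_eq_one_right (face_rel v2503 4 0)

theorem inv_53 : X 5 3 = (X 4 2)⁻¹ :=
  eq_inv_of_mul_eq_one_right (face_rel v2503 4 2)

theorem inv_60 : X 6 0 = (X 5 2)⁻¹ :=
  eq_inv_of_mul_eq_one_right (face_rel v2503 5 2)

theorem inv_61 : X 6 1 = (X 4 3)⁻¹ :=
  eq_inv_of_mul_eq_one_right (face_rel v2503 4 3)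

theorem inv_62 : X 6 2 = (X 2 2)⁻¹ :=
  eq_inv_of_mul_eq_one_right (face_rel v2503 2 2)

theorem inv_63 : X 6 3 = (X 3 1)⁻¹ :=
  eq_inv_of_mul_eq_one_right (face_rel v2503 3 1)
theorem rel1 : X 0 3 * X 2 2 * X 6 3 * X 3 2 * X 1 2 = 1 := by
  have h := edge_rel v2503 0 2 3 5 (by decide) (by decide)
  simp only [turnWord, one_mul] at h
  exact h

theorem rel2 : X 0 3 * X 2 1 * X 3 0 * X 1 3 * X 3 0 * X 1 2 * X 0 0 = 1 := by
  have h := edge_rel v2503 0 1 3 7 (by decide) (by decide)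
  simp only [turnWord, one_mul] at h
  exact h

theorem rel3 : X 0 2 * X 1 1 * X 4 2 * X 5 1 * X 4 2 * X 5 0 * X 2 3 * X 0 0 * X 0 0 = 1 := by
  have h := edge_rel v2503 0 1 2 9 (by decide) (by decide)
  simp only [turnWord, one_mul] at h
  exact h

theorem rel4 : X 1 3 * X 3 3 * X 2 2 * X 6 1 * X 4 1 = 1 := by
  have h := edge_rel v2503 1 1 3 5 (by decide) (by decide)
  simp only [turnWord, one_mul] at h
  exact h

theorem rel5 : X 1 1 * X 4 0 * X 5 2 * X 6 3 * X 3 0 = 1 := by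
  have h := edge_rel v2503 1 0 1 5 (by decide) (by decide)
  simp only [turnWord, one_mul] at h
  exact h

theorem rel6 : X 2 2 * X 6 0 * X 5 3 * X 4 3 * X 6 0 * X 5 0 = 1 := by
  have h := edge_rel v2503 2 0 2 6 (by decide) (by decide)
  simp only [turnWord, one_mul] at h
  exact h

theorem rel7 : X 2 1 * X 3 1 * X 6 1 * X 4 0 * X 5 0 = 1 := by
  have h := edge_rel v2503 2 0 1 5 (by decide) (by decide)
  simp only [turnWord, one_mul] at h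
  exact h


/-- the loop `g3 = [3, 1, 0, 2]` -/
def a3 : FaceGroup v2503 := X 0 3 * X 2 1 * (X 0 2 * X 1 0)⁻¹

/-- the loop `g4` -/
def a4 : FaceGroup v2503 := X 0 2 * X 1 0 * X 3 1 * (X 0 3 * X 2 2)⁻¹

/-- the first generator -/
def gv : FaceGroup v2503 := a3 * a4 * a3⁻¹

/-- the second generator -/
def gz : FaceGroup v2503 := a3 * a4⁻¹

theorem all_eight :
    X 0 0 = gz⁻¹ ∧
    X 0 2 * X 1 3 * (X 0 2 * X 1 0)⁻¹ = gz⁻¹ * gv⁻¹ * gz ∧
    X 0 3 * X 2 1 * (X 0 2 * X 1 0)⁻¹ = gv * gz ∧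
    X 0 2 * X 1 0 * X 3 1 * (X 0 3 * X 2 2)⁻¹ = gz⁻¹ * gv * gz ∧
    X 0 2 * X 1 1 * X 4 0 * (X 0 3 * X 2 0)⁻¹ = gz⁻¹ * gv⁻¹ ^ 2 * gz⁻¹ * gv⁻¹ ^ 2 ∧
    X 0 2 * X 1 1 * X 4 2 * (X 0 3 * X 2 0)⁻¹ =
      gz⁻¹ * gv⁻¹ ^ 2 * gz⁻¹ * gv⁻¹ ^ 3 * gz⁻¹ * gv⁻¹ ^ 2 * gz⁻¹ * gv⁻¹ ^ 3 * gz⁻¹ * gv⁻¹ ^ 2 ∧
    X 0 2 * X 1 1 * X 4 3 * (X 0 3 * X 2 2)⁻¹ = gz⁻¹ * gv⁻¹ ^ 2 ∧
    X 0 3 * X 2 0 * X 5 2 * (X 0 3 * X 2 2)⁻¹ = gv ^ 2 * gz * gv ^ 3 * gz ∧
    relW gv gz = 1 := by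
  have r1 := rel1
  have r2 := rel2
  have r3 := rel3
  have r4 := rel4
  have r5 := rel5
  have r6 := rel6
  have r7 := rel7
  rw [inv_63, inv_32, inv_12] at r1
  rw [inv_30, inv_12] at r2
  rw [inv_51, inv_50, inv_23] at r3
  rw [inv_33, inv_61, inv_41] at r4
  rw [inv_63, inv_30] at r5
  rw [inv_60, inv_53, inv_50] at r6
  rw [inv_61, inv_50] at r7
  obtain ⟨q1, q2, q3, q4, q5, q6, q7⟩ := edges_to_eight r1 r2 r3 r4 r5 r6 r7
  exact eight q1 q2 q3 q4 q5 q6 q7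

end Pool.Agent.Helper20.OC
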