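import Pool.Agent.Helper20.OC.Pres

/-!
Every crossing in terms of `v`, `z` and the paths to the tetrahedra; the fundamental group.
-/

namespace Pool.Agent.Helper20.OC

/-- the free group on two letters -/
abbrev FW : Type := FreeGroup (Fin 2)

/-- the words of the crossings -/
def wdl : Fin 7 → Fin 4 → List (Fin 2 × Bool) := ![
  ![[(1, false)],
    [(1, true)],
    [],
    []],
  ![[],
    [],
    [],
    [(1, false), (0, false), (1, true)]],
  ![[],
    [(0, true), (1, true)],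
    [],
    []],
  ![[],
    [(1, false), (0, true), (1, true)],
    [(1, false), (0, true), (1, true)],
    [(1, false), (0, false)]],
  ![[(1, false), (0, false), (0, false), (1, false), (0, false), (0, false)],
    [],
    [(1, false), (0, false), (0, false), (1, false), (0, false), (0, false), (0, false), (1, false), (0, false), (0, false), (1, false), (0, false), (0, false), (0, false), (1, false), (0, false), (0, false)],
    [(1, false), (0, false), (0, false)]],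
  ![[],
    [(0, true), (0, true), (1, true), (0, true), (0, true), (1, true)],
    [(0, true), (0, true), (1, true), (0, true), (0, true), (0, true), (1, true)],
    [(0, true), (0, true), (1, true), (0, true), (0, true), (0, true), (1, true), (0, true), (0, true), (1, true), (0, true), (0, true), (0, true), (1, true), (0, true), (0, true), (1, true)]],
  ![[(1, false), (0, false), (0, false), (0, false), (1, false), (0, false), (0, false)],
    [(0, true), (0, true), (1, true)],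
    [],
    [(1, false), (0, false), (1, true)]]]

/-- the words of the corners -/
def hdl : Fin 7 → Fin 4 → List (Fin 2 × Bool) := ![
  ![[],
    [(1, true), (1, true), (1, true)],
    [(1, true), (1, true)],
    [(1, true)]],
  ![[],
    [(0, true), (1, true)],
    [(0, true), (0, true), (1, true)],
    [(1, true)]],
  ![[],
    [(1, true), (1, true), (1, true)],
    [(1, true), (1, true)],
    [(1, false), (0, false), (0, false)]],
  ![[(1, false), (0, false), (1, true)],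
    [(0, true), (1, true)],
    [(1, true), (1, true), (0, true), (1, true)],
    [(1, true)]],
  ![[],
    [(1, true), (1, true), (0, true), (0, true), (1, true), (0, true), (0, true), (1, true)],
    [(0, true), (0, true), (1, true)],
    [(1, true)]],
  ![[(1, false), (0, false), (0, false), (1, false), (0, false), (0, false), (0, false), (1, false), (0, false), (0, false), (1, false), (0, false), (0, false), (0, false), (1, false), (0, false), (0, false)],
    [(1, false), (0, false), (0, false), (1, false), (0, false), (0, false), (0, false), (1, false), (0, false), (0, false)],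
    [(1, true), (1, true)],
    [(1, false), (0, false), (0, false)]],
  ![[],
    [(0, true), (1, true)],
    [(1, true), (1, true), (0, true), (0, true), (1, true)],
    [(1, false), (0, false), (0, false)]]]

/-- the word of a crossing -/
def wd (t : Fin 7) (f : Fin 4) : FW := FreeGroup.mk (wdl t f)

/-- the word of a corner -/
def hd (t : Fin 7) (f : Fin 4) : FW := FreeGroup.mk (hdl t f)

/-- evaluation of words -/
def phi : FW →* FaceGroup v2503 := FreeGroup.lift ![gv, gz]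

/-- the paths from the tetrahedron `0` to the others -/
def sp : Fin 7 → FaceGroup v2503 :=
  ![1, X 0 2, X 0 3, X 0 2 * X 1 0, X 0 2 * X 1 1, X 0 3 * X 2 0, X 0 3 * X 2 2]

theorem wd_inv : ∀ (t : Fin 7) (f : Fin 4),
    wd (v2503.nbr t f) (v2503.glue t f f) = (wd t f)⁻¹ := by
  decide

theorem cross_inv_of (t : Fin 7) (f : Fin 4)
    (h : X t f = (sp t)⁻¹ * phi (wd t f) * sp (v2503.nbr t f)) :
    X (v2503.nbr t f) (v2503.glue t f f) = (sp (v2503.nbr t f))⁻¹ *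
      phi (wd (v2503.nbr t f) (v2503.glue t f f)) * sp t := by
  have h1 : X (v2503.nbr t f) (v2503.glue t f f) = (X t f)⁻¹ :=
    eq_inv_of_mul_eq_one_right (face_rel v2503 t f)
  rw [h1, h, wd_inv, map_inv]
  group

theorem phi_mk (l : List (Fin 2 × Bool)) : phi (FreeGroup.mk l) =
    (l.map fun x => cond x.2 ((![gv, gz] : Fin 2 → FaceGroup v2503) x.1)
      ((![gv, gz] : Fin 2 → FaceGroup v2503) x.1)⁻¹).prod := by
  rw [phi, FreeGroup.lift_mk]

theorem c00 : X 0 0 = (sp 0)⁻¹ * phi (wd 0 0) * sp (v2503.nbr 0 0) := by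
  obtain ⟨e1, e2, e3, e4, e5, e6, e7, e8, -⟩ := all_eight
  have h : phi (wd 0 0) = (1) * X 0 0 * (1)⁻¹ := by
    rw [wd, phi_mk, e1]
    simp [wdl, pow_succ, mul_assoc]
  rw [h]
  change X 0 0 = (1)⁻¹ * ((1) * X 0 0 * (1)⁻¹) * (1)
  group

theorem c02 : X 0 2 = (sp 0)⁻¹ * phi (wd 0 2) * sp (v2503.nbr 0 2) := by
  have h : phi (wd 0 2) = 1 := by
    rw [wd, phi_mk]
    rfl
  rw [h]
  change X 0 2 = (1)⁻¹ * 1 * (X 0 2)
  group

theorem c03 : X 0 3 = (sp 0)⁻¹ * phi (wd 0 3) * sp (v2503.nbr 0 3) := by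
  have h : phi (wd 0 3) = 1 := by
    rw [wd, phi_mk]
    rfl
  rw [h]
  change X 0 3 = (1)⁻¹ * 1 * (X 0 3)
  group

theorem c10 : X 1 0 = (sp 1)⁻¹ * phi (wd 1 0) * sp (v2503.nbr 1 0) := by
  have h : phi (wd 1 0) = 1 := by
    rw [wd, phi_mk]
    rfl
  rw [h]
  change X 1 0 = (X 0 2)⁻¹ * 1 * (X 0 2 * X 1 0)
  group

theorem c11 : X 1 1 = (sp 1)⁻¹ * phi (wd 1 1) * sp (v2503.nbr 1 1) := by
  have h : phi (wd 1 1) = 1 := by
    rw [wd, phi_mk]
    rfl
  rw [h]
  change X 1 1 = (X 0 2)⁻¹ * 1 * (X 0 2 * X 1 1)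
  group

theorem c13 : X 1 3 = (sp 1)⁻¹ * phi (wd 1 3) * sp (v2503.nbr 1 3) := by
  obtain ⟨e1, e2, e3, e4, e5, e6, e7, e8, -⟩ := all_eight
  have h : phi (wd 1 3) = (X 0 2) * X 1 3 * (X 0 2 * X 1 0)⁻¹ := by
    rw [wd, phi_mk, e2]
    simp [wdl, pow_succ, mul_assoc]
  rw [h]
  change X 1 3 = (X 0 2)⁻¹ * ((X 0 2) * X 1 3 * (X 0 2 * X 1 0)⁻¹) * (X 0 2 * X 1 0)
  group

theorem c20 : X 2 0 = (sp 2)⁻¹ * phi (wd 2 0) * sp (v2503.nbr 2 0) := by
  have h : phi (wd 2 0) = 1 := by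
    rw [wd, phi_mk]
    rfl
  rw [h]
  change X 2 0 = (X 0 3)⁻¹ * 1 * (X 0 3 * X 2 0)
  group

theorem c21 : X 2 1 = (sp 2)⁻¹ * phi (wd 2 1) * sp (v2503.nbr 2 1) := by
  obtain ⟨e1, e2, e3, e4, e5, e6, e7, e8, -⟩ := all_eight
  have h : phi (wd 2 1) = (X 0 3) * X 2 1 * (X 0 2 * X 1 0)⁻¹ := by
    rw [wd, phi_mk, e3]
    simp [wdl, pow_succ, mul_assoc]
  rw [h]
  change X 2 1 = (X 0 3)⁻¹ * ((X 0 3) * X 2 1 * (X 0 2 * X 1 0)⁻¹) * (X 0 2 * X 1 0)
  group

theorem c22 : X 2 2 = (sp 2)⁻¹ * phi (wd 2 2) * sp (v2503.nbr 2 2) := by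
  have h : phi (wd 2 2) = 1 := by
    rw [wd, phi_mk]
    rfl
  rw [h]
  change X 2 2 = (X 0 3)⁻¹ * 1 * (X 0 3 * X 2 2)
  group

theorem c31 : X 3 1 = (sp 3)⁻¹ * phi (wd 3 1) * sp (v2503.nbr 3 1) := by
  obtain ⟨e1, e2, e3, e4, e5, e6, e7, e8, -⟩ := all_eight
  have h : phi (wd 3 1) = (X 0 2 * X 1 0) * X 3 1 * (X 0 3 * X 2 2)⁻¹ := by
    rw [wd, phi_mk, e4]
    simp [wdl, pow_succ, mul_assoc]
  rw [h]
  change X 3 1 = (X 0 2 * X 1 0)⁻¹ * ((X 0 2 * X 1 0) * X 3 1 * (X 0 3 * X 2 2)⁻¹) * (X 0 3 * X 2 2)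
  group

theorem c40 : X 4 0 = (sp 4)⁻¹ * phi (wd 4 0) * sp (v2503.nbr 4 0) := by
  obtain ⟨e1, e2, e3, e4, e5, e6, e7, e8, -⟩ := all_eight
  have h : phi (wd 4 0) = (X 0 2 * X 1 1) * X 4 0 * (X 0 3 * X 2 0)⁻¹ := by
    rw [wd, phi_mk, e5]
    simp [wdl, pow_succ, mul_assoc]
  rw [h]
  change X 4 0 = (X 0 2 * X 1 1)⁻¹ * ((X 0 2 * X 1 1) * X 4 0 * (X 0 3 * X 2 0)⁻¹) * (X 0 3 * X 2 0)
  group

theorem c42 : X 4 2 = (sp 4)⁻¹ * phi (wd 4 2) * sp (v2503.nbr 4 2) := by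
  obtain ⟨e1, e2, e3, e4, e5, e6, e7, e8, -⟩ := all_eight
  have h : phi (wd 4 2) = (X 0 2 * X 1 1) * X 4 2 * (X 0 3 * X 2 0)⁻¹ := by
    rw [wd, phi_mk, e6]
    simp [wdl, pow_succ, mul_assoc]
  rw [h]
  change X 4 2 = (X 0 2 * X 1 1)⁻¹ * ((X 0 2 * X 1 1) * X 4 2 * (X 0 3 * X 2 0)⁻¹) * (X 0 3 * X 2 0)
  group

theorem c43 : X 4 3 = (sp 4)⁻¹ * phi (wd 4 3) * sp (v2503.nbr 4 3) := by
  obtain ⟨e1, e2, e3, e4, e5, e6, e7, e8, -⟩ := all_eight
  have h : phi (wd 4 3) = (X 0 2 * X 1 1) * X 4 3 * (X 0 3 * X 2 2)⁻¹ := by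
    rw [wd, phi_mk, e7]
    simp [wdl, pow_succ, mul_assoc]
  rw [h]
  change X 4 3 = (X 0 2 * X 1 1)⁻¹ * ((X 0 2 * X 1 1) * X 4 3 * (X 0 3 * X 2 2)⁻¹) * (X 0 3 * X 2 2)
  group

theorem c52 : X 5 2 = (sp 5)⁻¹ * phi (wd 5 2) * sp (v2503.nbr 5 2) := by
  obtain ⟨e1, e2, e3, e4, e5, e6, e7, e8, -⟩ := all_eight
  have h : phi (wd 5 2) = (X 0 3 * X 2 0) * X 5 2 * (X 0 3 * X 2 2)⁻¹ := by
    rw [wd, phi_mk, e8]
    simp [wdl, pow_succ, mul_assoc]
  rw [h]
  change X 5 2 = (X 0 3 * X 2 0)⁻¹ * ((X 0 3 * X 2 0) * X 5 2 * (X 0 3 * X 2 2)⁻¹) * (X 0 3 * X 2 2)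
  group

theorem cross_eq : ∀ (t : Fin 7) (f : Fin 4),
    X t f = (sp t)⁻¹ * phi (wd t f) * sp (v2503.nbr t f) := by
  intro t f
  fin_cases t <;> fin_cases f
  · exact c00
  · exact cross_inv_of 0 0 c00
  · exact c02
  · exact c03
  · exact c10
  · exact c11
  · exact cross_inv_of 0 2 c02
  · exact c13
  · exact c20
  · exact c21
  · exact c22
  · exact cross_inv_of 0 3 c03
  · exact cross_inv_of 1 0 c10
  · exact c31
  · exact cross_inv_of 1 3 c13
  · exact cross_inv_of 2 1 c21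
  · exact c40
  · exact cross_inv_of 1 1 c11
  · exact c42
  · exact c43
  · exact cross_inv_of 2 0 c20
  · exact cross_inv_of 4 0 c40
  · exact c52
  · exact cross_inv_of 4 2 c42
  · exact cross_inv_of 5 2 c52
  · exact cross_inv_of 4 3 c43
  · exact cross_inv_of 2 2 c22
  · exact cross_inv_of 3 1 c31

end Pool.Agent.Helper20.OC
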